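import Pool.Agent.H500.TH.Stm
import Pool.Agent.H500.HC.All

set_option autoImplicit false

/-!
PART C1 of project TH (helper500): the types are natural numbers (helper34; adapted from
`Pool/Agent/H738/HC/Int.lean`).
-/

namespace Pool.Agent.H34.TH.TInt

open NumberField IsDedekindDomain Filter Topology Polynomial WithZero
open Pool.Agent.H500.HC Pool.Agent.H500.TH
open Pool.Agent.H738.HC.Int (val_exp val_one val_uni)

theorem main0 : Pool.Agent.H500.HC.S_Dir → Pool.Agent.H500.HC.S_Nrm → Pool.Agent.H500.HC.S_Desc →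
    S_TInt := by
  intro hDir hNrm hDesc K E _ _ _ _ hcard j N n h hN hh P α hP hinf t ht i σ
  classical
  -- the place `lam`
  set D : ℕ := 2 * (n * (n * Module.finrank ℚ E)) with hD
  have hfin : {lam : HeightOneSpectrum (𝓞 E) | ((D.factorial : ℕ) : 𝓞 E) ∈ lam.asIdeal}.Finite :=
    Pool.Agent.H500.Kum.fin_mem (Nat.cast_ne_zero.2 (Nat.factorial_ne_zero _))
  obtain ⟨lam, ⟨L⟩, hlam⟩ := (hinf.sdiff hfin).nonempty
  have hlD : D < L.l := by
    by_contra hcon
    push Not at hcon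
    apply hlam
    show ((D.factorial : ℕ) : 𝓞 E) ∈ lam.asIdeal
    exact (natCast_mem_iff_dvd L.hl L.hmem).2 (Nat.dvd_factorial L.hl.pos hcon)
  have hlk : (L.l : L.k) = 0 := by
    have h1 : (L.l : 𝓞 E) ∈ RingHom.ker (L.ψ.comp (jz j)) := by
      rw [L.hker]
      exact L.hmem
    rw [RingHom.mem_ker, map_natCast] at h1
    exact h1
  -- the prime `w` of `E`
  obtain ⟨B, hB⟩ := hNrm K E hcard
  have hM : 0 < N * L.l := Nat.mul_pos hN L.hl.pos
  obtain ⟨w, y, hw, hy1, hy2, hwp, hwB⟩ := hDir E (N * L.l) 1 hM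
    (by rw [Ideal.span_singleton_one, ← Ideal.one_eq_top]; exact isCoprime_one_left)
    (max B (max N L.l))
  have hBw : B < Ideal.absNorm w.asIdeal := lt_of_le_of_lt (le_max_left _ _) hwB
  have hNw : N < Ideal.absNorm w.asIdeal :=
    lt_of_le_of_lt ((le_max_left _ _).trans (le_max_right _ _)) hwB
  have hlw : L.l < Ideal.absNorm w.asIdeal :=
    lt_of_le_of_lt ((le_max_right _ _).trans (le_max_right _ _)) hwB
  have hy0 : y ≠ 0 := by
    rintro rfl
    apply w.ne_bot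
    rw [hw, Ideal.span_singleton_eq_bot]
  obtain ⟨v, x, hv, hx, hvw, hx1, hx2, hx3⟩ := hB w y (N * L.l) hw hwp hBw hM ⟨hy0, hy1, hy2⟩ σ
  have hvp : (Ideal.absNorm v.asIdeal).Prime := by rw [hvw]; exact hwp
  have hvN : (N : 𝓞 K) ∉ v.asIdeal := by
    rw [natCast_mem_iff_dvd hvp (norm_mem v), hvw]
    exact fun h => absurd (Nat.le_of_dvd hN h) (not_le.2 hNw)
  have hvl : (L.l : 𝓞 K) ∉ v.asIdeal := by
    rw [natCast_mem_iff_dvd hvp (norm_mem v), hvw]
    exact fun h => absurd (Nat.le_of_dvd L.hl.pos h) (not_le.2 hlw)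
  -- all `α v i` are `1`
  have hα1 : ∀ i, L.ψ (α v i) = 1 := by
    intro i
    obtain ⟨π', hπ'⟩ := L.hroots v hvN hvl
    have h1 := hπ' (π'.symm i)
    rw [Equiv.apply_symm_apply] at h1
    rw [h1, hv]
    exact (L.hray _).ray x hx
  obtain ⟨π, hπ⟩ := ht v hvN
  obtain ⟨m, c, hm, hc, hαc⟩ := hπ i (x ^ h) ((hx.mono (Dvd.intro _ rfl)).pow h)
    (by rw [hv, Ideal.span_singleton_pow])
  have hne : ∀ τ : K →+* E, ((em τ x : 𝓞 E) : E) ≠ 0 := fun τ h0 =>
    em_ne_zero hx.1 τ (RingOfIntegers.coe_injective (h0.trans (map_zero _).symm))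
  obtain ⟨b, hb⟩ := hDesc E j n (P v) (α v) (hP v hvN) L.k L.ψ L.l L.hl hlk hlD hα1 (π i)
    (h * m) (∏ τ : K →+* E, ((em τ (x ^ h) : 𝓞 E) : E) ^ c τ) (Nat.mul_pos hh hm)
    (by rw [hαc, map_prod]; exact Finset.prod_congr rfl fun τ _ => (map_zpow₀ j _ _).symm)
  have hb0 : b ≠ 0 := by
    rintro rfl
    have h1 := hα1 (π i)
    rw [hb, map_zero, map_zero] at h1
    exact zero_ne_one h1
  -- the equation in `E`
  have hE : (b : E) ^ (h * m) = ∏ τ : K →+* E, ((em τ (x ^ h) : 𝓞 E) : E) ^ c τ := by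
    apply j.injective
    rw [map_prod, map_pow]
    have h1 : j (b : E) = algebraMap ZBar QBar (α v (π i)) := by rw [hb]; rfl
    rw [h1, hαc]
    exact Finset.prod_congr rfl fun τ _ => (map_zpow₀ j _ _).symm
  obtain ⟨k, hk⟩ := val_exp (w := w) hb0
  have hval := congrArg (w.valuation E) hE
  rw [map_pow, map_prod, hk, Finset.prod_eq_single σ] at hval
  · have e1 : ((em σ (x ^ h) : 𝓞 E) : E) = ((em σ x : 𝓞 E) : E) ^ h := by
      rw [em_pow]; exact map_pow _ _ _
    rw [map_zpow₀, e1, map_pow, val_uni hx1 hx2, ← exp_nsmul, ← exp_nsmul, ← exp_zsmul] at hval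
    have h2 := exp_injective hval
    simp only [nsmul_eq_mul, smul_eq_mul, Nat.cast_mul] at h2
    have h3 : (h : ℤ) * (m * k) = (h : ℤ) * c σ := by linear_combination -h2
    have hh' : (h : ℤ) ≠ 0 := by exact_mod_cast hh.ne'
    have h4 := mul_left_cancel₀ hh' h3
    refine ⟨k, ?_⟩
    have h5 := hc σ
    rw [← h4] at h5
    push_cast at h5
    have hm' : (m : ℚ) ≠ 0 := by exact_mod_cast hm.ne'
    exact (mul_left_cancel₀ hm' h5).symm
  · intro τ _ hτ
    have e1 : ((em τ (x ^ h) : 𝓞 E) : E) = ((em τ x : 𝓞 E) : E) ^ h := by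
      rw [em_pow]; exact map_pow _ _ _
    rw [map_zpow₀, e1, map_pow, val_one (hx3 τ hτ), one_pow, one_zpow]
  · intro hn
    exact absurd (Finset.mem_univ _) hn

theorem main : Pool.Agent.H500.TH.S_TInt :=
  main0 Pool.Agent.H500.HC.all_Dir Pool.Agent.H500.HC.all_Nrm Pool.Agent.H500.HC.all_Desc

end Pool.Agent.H34.TH.TInt

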